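import Pool.Agent.H41.SS.Targets

/-!
# Row TRU of ss_modules: search with pruning gives a tree-like refutation
-/

set_option autoImplicit false

namespace Pool.Agent.H44.SS.TRU

open Finset Pool.Agent.H97.RK Pool.Agent.H97.RL Pool.Agent.H41.SS

/-- tree-like derivations -/
inductive Tr (n : ℕ) : Type
  | leaf (C : Clause n) : Tr n
  | node (x : Fin n) (C : Clause n) (a b : Tr n) : Tr n

namespace Tr

variable {n : ℕ}

/-- the number of the lines -/
def size : Tr n → ℕ
  | leaf _ => 1
  | node _ _ a b => a.size + b.size + 1

/-- the last line -/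
def root : Tr n → Clause n
  | leaf C => C
  | node _ C _ _ => C

/-- the variables -/
def vars : Tr n → Finset (Fin n)
  | leaf _ => ∅
  | node x _ a b => insert x (a.vars ∪ b.vars)

/-- the variables increase -/
def Inc : Tr n → Prop
  | leaf _ => True
  | node x _ a b => a.Inc ∧ b.Inc ∧ (∀ y ∈ a.vars, x < y) ∧ ∀ y ∈ b.vars, x < y

/-- correct derivations -/
def Good {k m : ℕ} (F : Fml n k m) : Tr n → Prop
  | leaf C => ∃ c, cls F c ⊆ C
  | node x C a b => a.Good F ∧ b.Good F ∧ a.root ⊆ insert (x, true) C ∧
      b.root ⊆ insert (x, false) C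

/-- the lines with the numbers `o, o + 1, ..` are the lines of the tree -/
def Blk (line : ℕ → Clause n) (rule : ℕ → Rule n) : ℕ → Tr n → Prop
  | o, leaf C => line o = C ∧ rule o = Rule.ax
  | o, node x C a b => Blk line rule o a ∧ Blk line rule (o + a.size) b ∧
      line (o + a.size + b.size) = C ∧
      rule (o + a.size + b.size) = Rule.res x (o + a.size - 1) (o + a.size + b.size - 1)

theorem size_pos (T : Tr n) : 1 ≤ T.size := by
  cases T with
  | leaf C => exact le_refl _
  | node x C a b => simp only [size]; omega

theorem blk_congr (T : Tr n) : ∀ (line line' : ℕ → Clause n) (rule rule' : ℕ → Rule n) (o : ℕ),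
    (∀ i, o ≤ i → i < o + T.size → line' i = line i ∧ rule' i = rule i) →
    Blk line rule o T → Blk line' rule' o T := by
  induction T with
  | leaf C =>
    intro line line' rule rule' o h hb
    obtain ⟨h1, h2⟩ := h o (le_refl _) (by simp only [size]; omega)
    exact ⟨h1.trans hb.1, h2.trans hb.2⟩
  | node x C a b iha ihb =>
    intro line line' rule rule' o h hb
    have ha := a.size_pos
    have hbs := b.size_pos
    obtain ⟨h1, h2, h3, h4⟩ := hb
    have h5 := h (o + a.size + b.size) (by omega) (by simp only [size]; omega)
    refine ⟨iha line line' rule rule' o (fun i hi1 hi2 => h i hi1 (by simp only [size]; omega)) h1,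
      ihb line line' rule rule' _ (fun i hi1 hi2 => h i (by omega) (by simp only [size]; omega)) h2,
      h5.1.trans h3, h5.2.trans h4⟩

theorem exists_blk (T : Tr n) : ∀ o : ℕ, ∃ (line : ℕ → Clause n) (rule : ℕ → Rule n),
    Blk line rule o T := by
  induction T with
  | leaf C => intro o; exact ⟨fun _ => C, fun _ => Rule.ax, rfl, rfl⟩
  | node x C a b iha ihb =>
    intro o
    obtain ⟨l1, r1, h1⟩ := iha o
    obtain ⟨l2, r2, h2⟩ := ihb (o + a.size)
    refine ⟨fun i => if i < o + a.size then l1 i else if i < o + a.size + b.size then l2 i else C,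
      fun i => if i < o + a.size then r1 i else if i < o + a.size + b.size then r2 i else
        Rule.res x (o + a.size - 1) (o + a.size + b.size - 1), ?_, ?_, ?_, ?_⟩
    · refine blk_congr a l1 _ r1 _ o (fun i _ hi => ?_) h1
      simp only [if_pos hi, and_self]
    · refine blk_congr b l2 _ r2 _ _ (fun i hi1 hi2 => ?_) h2
      simp only [if_neg (not_lt.2 hi1), if_pos hi2, and_self]
    · have e1 : ¬ (o + a.size + b.size < o + a.size) := by omega
      have e2 : ¬ (o + a.size + b.size < o + a.size + b.size) := by omega
      simp only [if_neg e1, if_neg e2]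
    · have e1 : ¬ (o + a.size + b.size < o + a.size) := by omega
      have e2 : ¬ (o + a.size + b.size < o + a.size + b.size) := by omega
      simp only [if_neg e1, if_neg e2]

theorem blk_root {line : ℕ → Clause n} {rule : ℕ → Rule n} {o : ℕ} {T : Tr n}
    (h : Blk line rule o T) : line (o + T.size - 1) = T.root := by
  cases T with
  | leaf C =>
    have e : o + (leaf C : Tr n).size - 1 = o := by simp only [size]; omega
    rw [e]; exact h.1
  | node x C a b =>
    have e : o + (node x C a b).size - 1 = o + a.size + b.size := by simp only [size]; omega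
    rw [e]; exact h.2.2.1

theorem blk_correct {k m : ℕ} {F : Fml n k m} {line : ℕ → Clause n} {rule : ℕ → Rule n}
    (T : Tr n) : ∀ o : ℕ, Blk line rule o T → T.Good F →
    ∀ i, o ≤ i → i < o + T.size → Correct F line i (rule i) := by
  induction T with
  | leaf C =>
    intro o hb hg i hi1 hi2
    have e : i = o := by simp only [size] at hi2; omega
    subst e
    obtain ⟨h1, h2⟩ := hb
    rw [h2]
    obtain ⟨c, hc⟩ := hg
    exact ⟨c, by rw [h1]; exact hc⟩
  | node x C a b iha ihb =>
    intro o hb hg i hi1 hi2
    have ha := a.size_pos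
    have hbs := b.size_pos
    simp only [size] at hi2
    obtain ⟨h1, h2, h3, h4⟩ := hb
    obtain ⟨g1, g2, g3, g4⟩ := hg
    by_cases c1 : i < o + a.size
    · exact iha o h1 g1 i hi1 c1
    · by_cases c2 : i < o + a.size + b.size
      · exact ihb _ h2 g2 i (by omega) c2
      · have e : i = o + a.size + b.size := by omega
        subst e
        rw [h4]
        refine ⟨by omega, by omega, ?_, ?_⟩
        · rw [blk_root h1, h3]; exact g3
        · rw [blk_root h2, h3]; exact g4

theorem blk_use {line : ℕ → Clause n} {rule : ℕ → Rule n}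
    (T : Tr n) : ∀ o : ℕ, Blk line rule o T →
    (∀ i, o ≤ i → i < o + T.size → ∀ j b, Use rule j i b → o ≤ j ∧ j < i) ∧
    ∀ i i' j b b', o ≤ i → i < o + T.size → o ≤ i' → i' < o + T.size →
      Use rule j i b → Use rule j i' b' → i = i' ∧ b = b' := by
  induction T with
  | leaf C =>
    intro o hb
    obtain ⟨h1, h2⟩ := hb
    have key : ∀ i, o ≤ i → i < o + (leaf C : Tr n).size → ∀ j b, ¬ Use rule j i b := by
      intro i hi1 hi2 j b hu
      have e : i = o := by simp only [size] at hi2; omega
      subst e
      rcases hu with ⟨h, _⟩ | ⟨x, a, h, _⟩ | ⟨x, a, h, _⟩ <;> rw [h2] at h <;> cases h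
    exact ⟨fun i hi1 hi2 j b hu => (key i hi1 hi2 j b hu).elim,
      fun i i' j b b' hi1 hi2 _ _ hu _ => (key i hi1 hi2 j b hu).elim⟩
  | node x C a b iha ihb =>
    intro o hb
    have ha := a.size_pos
    have hbs := b.size_pos
    obtain ⟨h1, h2, h3, h4⟩ := hb
    obtain ⟨a1, a2⟩ := iha o h1
    obtain ⟨b1, b2⟩ := ihb _ h2
    have hroot : ∀ j c, Use rule j (o + a.size + b.size) c →
        (j = o + a.size - 1 ∧ c = false) ∨ (j = o + a.size + b.size - 1 ∧ c = true) := by
      intro j c hu
      rcases hu with ⟨h, _⟩ | ⟨y, d, h, hc⟩ | ⟨y, d, h, hc⟩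
      · rw [h4] at h; cases h
      · rw [h4] at h
        injection h with e1 e2 e3
        exact Or.inl ⟨e2.symm, hc⟩
      · rw [h4] at h
        injection h with e1 e2 e3
        exact Or.inr ⟨e3.symm, hc⟩
    constructor
    · intro i hi1 hi2 j c hu
      simp only [size] at hi2
      by_cases c1 : i < o + a.size
      · exact a1 i hi1 c1 j c hu
      · by_cases c2 : i < o + a.size + b.size
        · have := b1 i (by omega) c2 j c hu
          omega
        · have e : i = o + a.size + b.size := by omega
          subst e
          rcases hroot j c hu with ⟨h, _⟩ | ⟨h, _⟩ <;> omega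
    · intro i i' j c c' hi1 hi2 hi1' hi2' hu hu'
      simp only [size] at hi2 hi2'
      -- position of a line which uses `j`
      have pos : ∀ i c, o ≤ i → i < o + (a.size + b.size + 1) → Use rule j i c →
          (i < o + a.size ∧ j + 1 < o + a.size) ∨
          (o + a.size ≤ i ∧ i < o + a.size + b.size ∧ o + a.size ≤ j ∧
            j + 1 < o + a.size + b.size) ∨
          (i = o + a.size + b.size ∧ ((j = o + a.size - 1 ∧ c = false) ∨
            (j = o + a.size + b.size - 1 ∧ c = true))) := by
        intro i c hi1 hi2 hu
        by_cases c1 : i < o + a.size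
        · have := a1 i hi1 c1 j c hu
          exact Or.inl ⟨c1, by omega⟩
        · by_cases c2 : i < o + a.size + b.size
          · have := b1 i (by omega) c2 j c hu
            exact Or.inr (Or.inl ⟨by omega, c2, by omega, by omega⟩)
          · have e : i = o + a.size + b.size := by omega
            subst e
            exact Or.inr (Or.inr ⟨rfl, hroot j c hu⟩)
      have p1 := pos i c hi1 hi2 hu
      have p2 := pos i' c' hi1' hi2' hu'
      rcases p1 with p1 | p1 | p1 <;> rcases p2 with p2 | p2 | p2
      · exact a2 i i' j c c' hi1 p1.1 hi1' p2.1 hu hu'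
      · omega
      · rcases p2.2 with q | q <;> omega
      · omega
      · exact b2 i i' j c c' p1.1 p1.2.1 p2.1 p2.2.1 hu hu'
      · rcases p2.2 with q | q <;> omega
      · rcases p1.2 with q | q <;> omega
      · rcases p1.2 with q | q <;> omega
      · refine ⟨p1.1.trans p2.1.symm, ?_⟩
        rcases p1.2 with q | q <;> rcases p2.2 with q' | q'
        · rw [q.2, q'.2]
        · omega
        · omega
        · rw [q.2, q'.2]

theorem path_inv {line : ℕ → Clause n} {rule : ℕ → Rule n} {T : Tr n}
    (hb : Blk line rule 0 T) (hT : T.Inc) {i : ℕ} {l : List (Fin n)}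
    (hp : Path rule (T.size - 1) i l) :
    ∃ (o : ℕ) (T' : Tr n), Blk line rule o T' ∧ i = o + T'.size - 1 ∧ T'.Inc ∧
      (∀ x ∈ l, ∀ y ∈ T'.vars, x < y) ∧ l.Nodup := by
  induction hp with
  | refl => exact ⟨0, T, hb, by omega, hT, by simp, List.nodup_nil⟩
  | weak hp hr ih =>
    exfalso
    obtain ⟨o, T', h1, h2, -, -, -⟩ := ih
    subst h2
    cases T' with
    | leaf C =>
      have e : o + (leaf C : Tr n).size - 1 = o := by simp only [size]; omega
      rw [e, h1.2] at hr
      cases hr
    | node x C a b =>
      have e : o + (node x C a b).size - 1 = o + a.size + b.size := by simp only [size]; omega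
      rw [e, h1.2.2.2] at hr
      cases hr
  | left hp hr ih =>
    obtain ⟨o, T', h1, h2, h3, h4, h5⟩ := ih
    subst h2
    cases T' with
    | leaf C =>
      have e : o + (leaf C : Tr n).size - 1 = o := by simp only [size]; omega
      rw [e, h1.2] at hr
      cases hr
    | node x C a b =>
      have e : o + (node x C a b).size - 1 = o + a.size + b.size := by simp only [size]; omega
      rw [e, h1.2.2.2] at hr
      injection hr with e1 e2 e3
      subst e1
      refine ⟨o, a, h1.1, e2.symm, h3.1, ?_, ?_⟩
      · intro y hy z hz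
        rcases List.mem_cons.1 hy with rfl | hy
        · exact h3.2.2.1 z hz
        · exact h4 y hy z (by
            simp only [vars, mem_insert, mem_union]
            exact Or.inr (Or.inl hz))
      · refine List.nodup_cons.2 ⟨fun hx => ?_, h5⟩
        exact lt_irrefl _ (h4 x hx x (by simp only [vars, mem_insert]; exact Or.inl trivial))
  | right hp hr ih =>
    obtain ⟨o, T', h1, h2, h3, h4, h5⟩ := ih
    subst h2
    cases T' with
    | leaf C =>
      have e : o + (leaf C : Tr n).size - 1 = o := by simp only [size]; omega
      rw [e, h1.2] at hr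
      cases hr
    | node x C a b =>
      have e : o + (node x C a b).size - 1 = o + a.size + b.size := by simp only [size]; omega
      rw [e, h1.2.2.2] at hr
      injection hr with e1 e2 e3
      subst e1
      refine ⟨o + a.size, b, h1.2.1, e3.symm, h3.2.1, ?_, ?_⟩
      · intro y hy z hz
        rcases List.mem_cons.1 hy with rfl | hy
        · exact h3.2.2.2 z hz
        · exact h4 y hy z (by
            simp only [vars, mem_insert, mem_union]
            exact Or.inr (Or.inr hz))
      · refine List.nodup_cons.2 ⟨fun hx => ?_, h5⟩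
        exact lt_irrefl _ (h4 x hx x (by simp only [vars, mem_insert]; exact Or.inl trivial))

end Tr

variable {n k m : ℕ}

/-- the clause of the partial assignment -/
def Cl (i : ℕ) (z : Fin n → Bool) : Clause n :=
  (univ.filter fun v : Fin n => v.1 < i).image fun v => (v, !z v)

/-- the living extensions -/
noncomputable def Ex' (F : Fml n k m) (i : ℕ) (z : Fin n → Bool) (i' : ℕ) :
    Finset (Fin n → Bool) :=
  (Alv F i').filter fun z' => ∀ v : Fin n, v.1 < i → z' v = z v

theorem exists_tree (F : Fml n k m) (hF : ∀ z, ∃ c, Falsified (cls F c) z) (d : ℕ) :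
    ∀ (i : ℕ) (z : Fin n → Bool), i + d = n → (∀ v : Fin n, i ≤ v.1 → z v = false) →
    ∃ T : Tr n, T.root = Cl i z ∧ T.Good F ∧ T.Inc ∧ (∀ y ∈ T.vars, i ≤ y.1) ∧
      T.size ≤ 1 + 2 * ∑ i' ∈ Ico i n, (Ex' F i z i').card := by
  classical
  -- dead nodes
  have hdead : ∀ (i : ℕ) (z : Fin n → Bool) (c : Fin m), (∀ j, ((F c j).1 : ℕ) < i) →
      (∀ j, z (F c j).1 ≠ (F c j).2) →
      ∃ T : Tr n, T.root = Cl i z ∧ T.Good F ∧ T.Inc ∧ (∀ y ∈ T.vars, i ≤ y.1) ∧
      T.size ≤ 1 + 2 * ∑ i' ∈ Ico i n, (Ex' F i z i').card := by
    intro i z c h1 h2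
    refine ⟨Tr.leaf (Cl i z), rfl, ⟨c, ?_⟩, trivial, by simp [Tr.vars], ?_⟩
    · intro l hl
      unfold cls at hl
      obtain ⟨j, -, rfl⟩ := mem_image.1 hl
      unfold Cl
      refine mem_image.2 ⟨(F c j).1, by simpa using h1 j, ?_⟩
      refine Prod.ext rfl ?_
      have h3 := h2 j
      change (!z (F c j).1) = (F c j).2
      revert h3
      cases z (F c j).1 <;> cases (F c j).2 <;> simp
    · simp only [Tr.size]
      omega
  induction d with
  | zero =>
    intro i z hi hz
    obtain ⟨c, hc⟩ := hF z
    refine hdead i z c (fun j => ?_) fun j => ?_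
    · have := (F c j).1.2
      omega
    · exact hc (F c j) (mem_image.2 ⟨j, mem_univ _, rfl⟩)
  | succ d ih =>
    intro i z hi hz
    by_cases hal : z ∈ Alv F i
    · have hin : i < n := by omega
      set x : Fin n := ⟨i, hin⟩ with hx
      set z1 : Fin n → Bool := Function.update z x true with hz1
      have hz0x : z x = false := hz x (le_refl _)
      obtain ⟨T0, r0, g0, c0, v0, s0⟩ := ih (i + 1) z (by omega)
        (fun v hv => hz v (by omega))
      obtain ⟨T1, r1, g1, c1, v1, s1⟩ := ih (i + 1) z1 (by omega) (by
        intro v hv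
        have hne : v ≠ x := by
          rintro rfl
          simp only [hx] at hv
          omega
        rw [hz1, Function.update_of_ne hne]
        exact hz v (by omega))
      refine ⟨Tr.node x (Cl i z) T0 T1, rfl, ⟨g0, g1, ?_, ?_⟩, ⟨c0, c1, ?_, ?_⟩, ?_, ?_⟩
      · rw [r0]
        intro l hl
        unfold Cl at hl
        obtain ⟨v, hv, rfl⟩ := mem_image.1 hl
        have hv' : v.1 < i + 1 := by simpa using hv
        by_cases hvi : v.1 < i
        · refine mem_insert_of_mem ?_
          unfold Cl
          exact mem_image.2 ⟨v, by simpa using hvi, rfl⟩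
        · have e : v = x := Fin.ext (by simp only [hx]; omega)
          rw [e, hz0x]
          exact mem_insert_self _ _
      · rw [r1]
        intro l hl
        unfold Cl at hl
        obtain ⟨v, hv, rfl⟩ := mem_image.1 hl
        have hv' : v.1 < i + 1 := by simpa using hv
        by_cases hvi : v.1 < i
        · refine mem_insert_of_mem ?_
          unfold Cl
          refine mem_image.2 ⟨v, by simpa using hvi, ?_⟩
          have hne : v ≠ x := by
            rintro rfl
            simp only [hx] at hvi
            omega
          rw [hz1, Function.update_of_ne hne]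
        · have e : v = x := Fin.ext (by simp only [hx]; omega)
          rw [e, hz1, Function.update_self]
          exact mem_insert_self _ _
      · intro y hy
        have := v0 y hy
        exact Fin.lt_def.2 (by simp only [hx]; omega)
      · intro y hy
        have := v1 y hy
        exact Fin.lt_def.2 (by simp only [hx]; omega)
      · intro y hy
        simp only [Tr.vars, mem_insert, mem_union] at hy
        rcases hy with rfl | hy | hy
        · simp only [hx]; exact le_refl _
        · have := v0 y hy; omega
        · have := v1 y hy; omega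
      · -- the size
        simp only [Tr.size]
        have hIco : Ico i n = insert i (Ico (i + 1) n) := by
          ext j
          simp only [mem_Ico, mem_insert]
          omega
        have hni : i ∉ Ico (i + 1) n := by simp
        rw [hIco, sum_insert hni]
        have h1 : 1 ≤ (Ex' F i z i).card := by
          refine card_pos.2 ⟨z, ?_⟩
          unfold Ex'
          exact mem_filter.2 ⟨hal, fun v _ => rfl⟩
        have h2 : ∀ i' ∈ Ico (i + 1) n, (Ex' F (i + 1) z i').card +
            (Ex' F (i + 1) z1 i').card ≤ (Ex' F i z i').card := by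
          intro i' _
          rw [← card_union_of_disjoint]
          · refine card_le_card ?_
            intro z' hz'
            unfold Ex' at hz' ⊢
            rcases mem_union.1 hz' with h | h
            · obtain ⟨h3, h4⟩ := mem_filter.1 h
              exact mem_filter.2 ⟨h3, fun v hv => h4 v (by omega)⟩
            · obtain ⟨h3, h4⟩ := mem_filter.1 h
              refine mem_filter.2 ⟨h3, fun v hv => ?_⟩
              have hne : v ≠ x := by
                rintro rfl
                simp only [hx] at hv
                omega
              rw [h4 v (by omega), hz1, Function.update_of_ne hne]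
          · rw [Finset.disjoint_left]
            intro z' h h'
            unfold Ex' at h h'
            have h3 := (mem_filter.1 h).2 x (by simp only [hx]; omega)
            have h4 := (mem_filter.1 h').2 x (by simp only [hx]; omega)
            rw [h3, hz0x, hz1, Function.update_self] at h4
            exact absurd h4 (by simp)
        have h3 := sum_le_sum h2
        rw [sum_add_distrib] at h3
        omega
    · -- dead
      have h1 : ∃ c, (∀ j, ((F c j).1 : ℕ) < i) ∧ ∀ j, z (F c j).1 ≠ (F c j).2 := by
        by_contra hcon
        apply hal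
        unfold Alv
        refine mem_filter.2 ⟨mem_univ _, hz, fun c hc => hcon ⟨c, hc⟩⟩
      obtain ⟨c, hc1, hc2⟩ := h1
      exact hdead i z c hc1 hc2

end Pool.Agent.H44.SS.TRU

namespace Pool.Agent.H44.SS

open Finset Pool.Agent.H97.RK Pool.Agent.H97.RL Pool.Agent.H41.SS Pool.Agent.H44.SS.TRU

theorem pf_TRU : T_TRU := by
  classical
  intro n k m F hF
  obtain ⟨T, hr, hg, hi, -, hs⟩ := exists_tree F hF n 0 (fun _ => false) (by omega)
    (fun _ _ => rfl)
  obtain ⟨line, rule, hb⟩ := T.exists_blk 0
  have hpos := T.size_pos
  refine ⟨T.size, T.size - 1, line, rule, ⟨by omega, ?_, ?_⟩, ?_, ?_, ?_⟩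
  · have h1 := Tr.blk_root hb
    rw [Nat.zero_add] at h1
    rw [h1, hr]
    unfold Cl
    simp
  · intro i hi'
    exact T.blk_correct 0 hb hg i (Nat.zero_le _) (by omega)
  · intro j _ _ _ i b i' b' hi1 hi2 hu hu'
    exact (T.blk_use 0 hb).2 i i' j b b' (Nat.zero_le _) (by omega) (Nat.zero_le _) (by omega)
      hu hu'
  · intro i l hp
    obtain ⟨_, _, _, _, _, _, h⟩ := Tr.path_inv hb hi hp
    exact h
  · refine hs.trans ?_
    have h1 : ∀ i' ∈ Ico 0 n, (Ex' F 0 (fun _ => false) i').card ≤ (Alv F i').card := by
      intro i' _
      unfold Ex'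
      exact card_le_card (filter_subset _ _)
    have h2 := sum_le_sum h1
    rw [Nat.Ico_zero_eq_range] at h2
    rw [Nat.Ico_zero_eq_range]
    omega

end Pool.Agent.H44.SS
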